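import Pool.Agent.Helper39.SQ.Goals

/-!
# Project SQ, packet CHO: a binomial coefficient
-/

namespace Pool.Agent.Helper56.SQ

open Pool.Agent.Helper39.SQ

theorem thm : G_CHO := by
  intro d m hd hm
  obtain ⟨e, rfl⟩ : ∃ e, d = e + 1 := ⟨d - 1, by omega⟩
  have hpos : 1 ≤ (e + 1) * m := Nat.mul_pos (by omega) hm
  have h1 : m * ((e + 1) * m - 1).choose (e + 1 - 1) = ((e + 1) * m).choose (e + 1) := by
    have h := Nat.add_one_mul_choose_eq ((e + 1) * m - 1) e
    rw [Nat.sub_add_cancel hpos] at h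
    have h2 : (e + 1) * (m * ((e + 1) * m - 1).choose e) =
        (e + 1) * ((e + 1) * m).choose (e + 1) := by
      rw [← mul_assoc, h, mul_comm]
    rw [Nat.add_sub_cancel]
    exact Nat.eq_of_mul_eq_mul_left (by omega) h2
  rw [h1]
  have h2 : ((((e + 1) * m).choose (e + 1) : ℕ) : ℝ) ≤
      (((e + 1) * m : ℕ) : ℝ) ^ (e + 1) / ((e + 1).factorial : ℝ) := Nat.choose_le_pow_div _ _
  have h3 : (((e + 1) * m : ℕ) : ℝ) ^ (e + 1) / ((e + 1).factorial : ℝ) =
      (((e : ℝ) + 1) ^ (e + 1) / ((e + 1).factorial : ℝ)) * (m : ℝ) ^ (e + 1) := by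
    push_cast
    rw [mul_pow]
    ring
  have h5 : ((e : ℝ) + 1) ^ (e + 1) / (e + 1).factorial ≤ Real.exp ((e : ℝ) + 1) :=
    Real.pow_div_factorial_le_exp ((e : ℝ) + 1) (by positivity) _
  have h6 : Real.exp ((e : ℝ) + 1) ≤ 3 ^ (e + 1) := by
    have : Real.exp ((e : ℝ) + 1) = Real.exp 1 ^ (e + 1) := by
      rw [← Real.exp_nat_mul]; push_cast; ring_nf
    rw [this]
    have := Real.exp_one_lt_d9
    gcongr
    linarith
  have h7 : ((((e + 1) * m).choose (e + 1) : ℕ) : ℝ) ≤ ((3 * m) ^ (e + 1) : ℕ) := by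
    rw [h3] at h2
    push_cast
    rw [mul_pow]
    exact h2.trans (mul_le_mul_of_nonneg_right (h5.trans h6) (by positivity))
  exact_mod_cast h7

end Pool.Agent.Helper56.SQ
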