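import Pool.Agent.Helper84.SQ.GoalsB

/-!
# SQ-OPT: the optimal value and the box
-/

namespace Pool.Agent.Helper56.SQ

open Pool.Agent.Helper81.CC Pool.Agent.Bin
open Pool.Agent.Helper92.FR (Qn Cst dot cut cini cen lv)
open Pool.Agent.Helper84.SQ

theorem exists_min_list {α : Type*} (f : α → ℝ) : ∀ l : List α, l ≠ [] →
    ∃ x ∈ l, ∀ y ∈ l, f x ≤ f y := by
  intro l
  induction l with
  | nil => intro h; exact absurd rfl h
  | cons a l ih =>
    intro _
    by_cases hl : l = []
    · subst hl
      exact ⟨a, by simp, by simp⟩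
    · obtain ⟨x, hx, hmin⟩ := ih hl
      rcases le_total (f a) (f x) with h | h
      · refine ⟨a, by simp, ?_⟩
        intro y hy
        rcases List.mem_cons.1 hy with rfl | hy
        · exact le_rfl
        · exact h.trans (hmin y hy)
      · refine ⟨x, List.mem_cons_of_mem _ hx, ?_⟩
        intro y hy
        rcases List.mem_cons.1 hy with rfl | hy
        · exact h
        · exact hmin y hy

theorem opt (hFHV : FhvStmt) (hOPA : OpaStmt) (hOPB : OpbStmt) : OptStmt := by
  intro N d R F hOk
  obtain ⟨hA1, hA2⟩ := hOPA N d R F hOk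
  refine ⟨?_, ?_⟩
  · intro hnone
    by_contra hne
    obtain ⟨y, hy⟩ := Set.nonempty_iff_ne_empty.2 hne
    obtain ⟨x, hx, _⟩ := hA2 y hy
    obtain ⟨x0, hx0, hmin⟩ := exists_min_list (fun x => Qn.val (fh F x)) (cens N d R F)
      (List.ne_nil_of_mem hx)
    unfold bst at hnone
    have h1 := List.find?_eq_none.1 hnone x0 hx0
    apply h1
    rw [List.all_eq_true]
    intro z hz
    rw [Qn.le_iff]
    exact hmin z hz
  · intro x hx
    unfold bst at hx
    have hmem := List.mem_of_find?_eq_some hx
    have hall := List.find?_some hx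
    rw [List.all_eq_true] at hall
    obtain ⟨hlen, hnear⟩ := hA1 x hmem
    have hval : Qn.val (fh F x) = plF d F (lv d x) := (hFHV d F x hOk.lenF hlen).1
    obtain ⟨y, hyS, hbox, hyle⟩ := hOPB N d R F hOk (lv d x) hnear
    have hkey : ∀ y' ∈ Sol d R, plF d F (lv d x) ≤ (fv d F y' : ℝ) + 1 / 4 := by
      intro y' hy'
      obtain ⟨x', hx', hle⟩ := hA2 y' hy'
      have h1 := hall x' hx'
      rw [Qn.le_iff, hval, (hFHV d F x' hOk.lenF (hA1 x' hx').1).1] at h1
      exact h1.trans hle
    refine ⟨hlen, y, hyS, ?_, hbox, ?_⟩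
    · intro y' hy'
      have h1 := hkey y' hy'
      have h2 : (fv d F y : ℝ) < (fv d F y' : ℝ) + 1 := by linarith
      have h3 : fv d F y < fv d F y' + 1 := by exact_mod_cast h2
      omega
    · rw [val_rnd, hval, Int.floor_eq_iff]
      have h1 := hkey y hyS
      constructor <;> linarith

end Pool.Agent.Helper56.SQ
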